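import Pool.Agent.Q109.CP.Stm

/-!
# Project CP, lemma FIN: the theorem
-/

set_option autoImplicit false

namespace Pool.Agent.Q162.CP3

open Q109.CP MeasureTheory Set Filter Topology

theorem g_eq {p q r : ℕ} (a b : Fin (p + q + r + 2)) (ha : (a : ℕ) = p)
    (hb : (b : ℕ) = p + q + 1) : Q109.CP.g a b = gg p q r := by
  funext t
  unfold Q109.CP.g gg G phi
  have e1 : (((b : ℕ) : ℝ) - ((a : ℕ) : ℝ)) = (q : ℝ) + 1 := by
    rw [ha, hb]
    push_cast
    ring
  have e2 : (((p + q + r + 2 : ℕ) : ℝ) - 1 - ((b : ℕ) : ℝ)) = (r : ℝ) := by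
    rw [hb]
    push_cast
    ring
  have e3 : ((a : ℕ) : ℝ) = (p : ℝ) := by rw [ha]
  rw [e1, e2, e3]

theorem NN_eq (n p q r : ℕ) :
    (NN n p q r : ℝ) = (((p + q + r + 2 : ℕ) : ℝ) - 1) * n + 1 := by
  unfold NN
  simp only [Fintype.card_sum, Fintype.card_prod, Fintype.card_fin]
  push_cast
  ring

theorem fin_LE {n m : ℕ} (a b : Fin m) :
    {h : Fin n → Fin m → ℕ | IsLE a b h}.Finite := by
  refine (Set.finite_Icc (0 : Fin n → Fin m → ℕ) (fun _ _ => (m - 1) * n + 1)).subset ?_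
  intro h hh
  exact ⟨fun i j => Nat.zero_le _, fun i j => (hh.2.1 i j).le⟩

theorem fin : S_GP → S_EXT → S_ORB1 → S_ORB2 → S_FIN := by
  classical
  intro hGP hEXT hO1 hO2 m a b hab
  obtain ⟨p, q, r, hm, ha, hb⟩ : ∃ p q r : ℕ, m = p + q + r + 2 ∧ (a : ℕ) = p ∧
      (b : ℕ) = p + q + 1 := by
    have h1 : (a : ℕ) < b := hab
    have h2 := b.2
    exact ⟨a, b - a - 1, m - 1 - b, by omega, rfl, by omega⟩
  subst hm
  have hg := g_eq a b ha hb
  have hf : Q109.CP.f a b = ff p q r := by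
    unfold Q109.CP.f ff
    rw [hg]
  obtain ⟨-, -, -, -, -, -, -, -, -, -, -, -, hbij, -⟩ := hGP p q r
  refine ⟨by rw [hg]; exact hbij, fun ε hε => ?_⟩
  rw [hf, Metric.tendsto_atTop]
  intro η hη
  obtain ⟨n0, hn0⟩ := hEXT p q r ε (η / 2) hε (by linarith)
  refine ⟨max n0 1, fun n hn => ?_⟩
  have hn1 : 1 ≤ n := (le_max_right _ _).trans hn
  obtain ⟨hpos, hbad⟩ := hn0 n ((le_max_left _ _).trans hn)
  have hNpos : 0 < (((p + q + r + 2 : ℕ) : ℝ) - 1) * n + 1 := by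
    push_cast
    have : (0 : ℝ) ≤ ((p : ℝ) + q + r + 2 - 1) * n := by
      have h1 : (0 : ℝ) ≤ (p : ℝ) + q + r + 2 - 1 := by
        have := Nat.cast_nonneg (α := ℝ) p
        have := Nat.cast_nonneg (α := ℝ) q
        have := Nat.cast_nonneg (α := ℝ) r
        linarith
      positivity
    linarith
  -- the bad condition
  let Bd : (Fin (n + 1) → ℕ) → Prop := fun x => ∃ i : Fin (n + 1),
    ε < |(x i : ℝ) / (NN n p q r : ℝ) - ff p q r ((((i : ℕ) : ℝ) + 1) / ((n : ℝ) + 2))|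
  have e1 := hO1 n p q r (fun _ => True)
  have e2 := hO2 n p q r a b hn1 ha hb (fun _ => True)
  have e3 := hO1 n p q r Bd
  have e4 := hO2 n p q r a b hn1 ha hb Bd
  rw [e2] at e1
  rw [e4] at e3
  simp only [and_true] at e1
  set C : ℕ := (p.factorial * q.factorial * r.factorial) ^ n with hC
  have hCpos : 0 < C := by positivity
  set L := {h : Fin n → Fin (p + q + r + 2) → ℕ | IsLE a b h} with hL
  set Lb := {h : Fin n → Fin (p + q + r + 2) → ℕ | IsLE a b h ∧
    Bd (fun i => ht a b h (i : ℕ))} with hLb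
  rw [e1] at hpos hbad
  have e5 : {σ : E n p q r ≃ Fin (Fintype.card (E n p q r)) | Ord σ ∧
        ∃ i : Fin (n + 1), ε < |((σ (X i) : ℕ) : ℝ) / (NN n p q r : ℝ) -
          ff p q r ((((i : ℕ) : ℝ) + 1) / ((n : ℝ) + 2))|}.ncard = C * Lb.ncard := e3
  rw [e5] at hbad
  have hLpos : 0 < L.ncard := Nat.pos_of_mul_pos_left hpos
  have hCr : (0 : ℝ) < C := by exact_mod_cast hCpos
  have hLr : (0 : ℝ) < (L.ncard : ℝ) := by exact_mod_cast hLpos
  have hbad' : (Lb.ncard : ℝ) ≤ η / 2 * L.ncard := by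
    push_cast at hbad
    have h1 : (C : ℝ) * Lb.ncard ≤ C * (η / 2 * L.ncard) := by linarith
    exact le_of_mul_le_mul_left h1 hCr
  -- the good ones
  set Lg := {h : Fin n → Fin (p + q + r + 2) → ℕ | IsLE a b h ∧ ∀ i : ℕ, i ≤ n →
            |(ht a b h i : ℝ) - ((((p + q + r + 2 : ℕ) : ℝ) - 1) * n + 1) *
              ff p q r (((i : ℝ) + 1) / ((n : ℝ) + 2))| ≤
              ε * ((((p + q + r + 2 : ℕ) : ℝ) - 1) * n + 1)} with hLg
  have hiff : ∀ (h : Fin n → Fin (p + q + r + 2) → ℕ) (i : ℕ),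
      |(ht a b h i : ℝ) - ((((p + q + r + 2 : ℕ) : ℝ) - 1) * n + 1) *
              ff p q r (((i : ℝ) + 1) / ((n : ℝ) + 2))| ≤
              ε * ((((p + q + r + 2 : ℕ) : ℝ) - 1) * n + 1) ↔
      |(ht a b h i : ℝ) / (NN n p q r : ℝ) - ff p q r (((i : ℝ) + 1) / ((n : ℝ) + 2))| ≤ ε := by
    intro h i
    rw [NN_eq]
    set M := (((p + q + r + 2 : ℕ) : ℝ) - 1) * n + 1 with hM
    have h1 : (ht a b h i : ℝ) / M - ff p q r (((i : ℝ) + 1) / ((n : ℝ) + 2)) =
        ((ht a b h i : ℝ) - M * ff p q r (((i : ℝ) + 1) / ((n : ℝ) + 2))) / M := by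
      field_simp
    rw [h1, abs_div, abs_of_pos hNpos, div_le_iff₀ hNpos]
  have hunion : L = Lg ∪ Lb := by
    ext h
    simp only [hL, hLg, hLb, Set.mem_union, Set.mem_ofPred_eq]
    constructor
    · intro hh
      by_cases hc : ∀ i : ℕ, i ≤ n →
            |(ht a b h i : ℝ) - ((((p + q + r + 2 : ℕ) : ℝ) - 1) * n + 1) *
              ff p q r (((i : ℝ) + 1) / ((n : ℝ) + 2))| ≤
              ε * ((((p + q + r + 2 : ℕ) : ℝ) - 1) * n + 1)
      · exact Or.inl ⟨hh, hc⟩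
      · right
        push Not at hc
        obtain ⟨i, hi, hi2⟩ := hc
        refine ⟨hh, ⟨i, by omega⟩, ?_⟩
        have := (not_congr (hiff h i)).1 (not_le.2 hi2)
        exact not_le.1 this
    · rintro (hh | hh)
      · exact hh.1
      · exact hh.1
  have hdisj : Disjoint Lg Lb := by
    rw [Set.disjoint_left]
    rintro h ⟨_, h1⟩ ⟨_, i, h2⟩
    have h3 := (hiff h i).1 (h1 i (by have := i.2; omega))
    exact absurd h2 (not_lt.2 h3)
  have hfin : L.Finite := fin_LE a b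
  have hfg : Lg.Finite := hfin.subset (by rw [hunion]; exact Set.subset_union_left)
  have hfb : Lb.Finite := hfin.subset (by rw [hunion]; exact Set.subset_union_right)
  have hcard : L.ncard = Lg.ncard + Lb.ncard := by
    conv_lhs => rw [hunion]
    exact Set.ncard_union_eq hdisj hfg hfb
  have hcr : (Lg.ncard : ℝ) = L.ncard - Lb.ncard := by
    rw [hcard]
    push_cast
    ring
  rw [Real.dist_eq, hcr]
  have h6 : ((L.ncard : ℝ) - Lb.ncard) / L.ncard - 1 = -((Lb.ncard : ℝ) / L.ncard) := by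
    field_simp
    ring
  rw [h6, abs_neg, abs_of_nonneg (by positivity), div_lt_iff₀ hLr]
  have : η / 2 * L.ncard < η * L.ncard := by
    have : 0 < η * L.ncard := by positivity
    linarith
  linarith

end Pool.Agent.Q162.CP3
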