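import Pool.Agent.Q109.CP.Stm

/-!
# Project CP, lemma ORB1: sorting the sides
-/

set_option autoImplicit false

namespace Pool.Agent.Q162.CP

open Q109.CP

/-- the group of side permutations -/
abbrev H (n p q r : ℕ) : Type :=
  (Fin n → Equiv.Perm (Fin p)) × (Fin n → Equiv.Perm (Fin q)) × (Fin n → Equiv.Perm (Fin r))

/-- action on the elements -/
def Phi {n p q r : ℕ} (h : H n p q r) : Equiv.Perm (E n p q r) :=
  Equiv.sumCongr (Equiv.refl _) (Equiv.sumCongr (Equiv.prodShear (Equiv.refl _) h.1)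
    (Equiv.sumCongr (Equiv.prodShear (Equiv.refl _) h.2.1)
      (Equiv.prodShear (Equiv.refl _) h.2.2)))

theorem Phi_X {n p q r : ℕ} (h : H n p q r) (i : Fin (n + 1)) : Phi h (X i) = X i := rfl
theorem Phi_lo {n p q r : ℕ} (h : H n p q r) (i : Fin n) (j : Fin p) :
    Phi h (lo i j) = lo i (h.1 i j) := rfl
theorem Phi_mi {n p q r : ℕ} (h : H n p q r) (i : Fin n) (j : Fin q) :
    Phi h (mi i j) = mi i (h.2.1 i j) := rfl
theorem Phi_up {n p q r : ℕ} (h : H n p q r) (i : Fin n) (j : Fin r) :
    Phi h (up i j) = up i (h.2.2 i j) := rfl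

theorem E_cases {n p q r : ℕ} {C : E n p q r → Prop} (h1 : ∀ i, C (X i)) (h2 : ∀ i j, C (lo i j))
    (h3 : ∀ i j, C (mi i j)) (h4 : ∀ i j, C (up i j)) (e : E n p q r) : C e := by
  rcases e with i | ⟨i, j⟩ | ⟨i, j⟩ | ⟨i, j⟩
  · exact h1 i
  · exact h2 i j
  · exact h3 i j
  · exact h4 i j

theorem block_inj {k N : ℕ} {f g : Fin k → Fin N} (hf : StrictMono f) (hg : StrictMono g)
    (π ρ : Equiv.Perm (Fin k)) (h : ∀ j, f (π j) = g (ρ j)) : f = g ∧ π = ρ := by
  have h1 : Set.range f = Set.range g := by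
    rw [← π.surjective.range_comp f, ← ρ.surjective.range_comp g]
    congr 1
    funext j
    exact h j
  have h2 : f = g := (hf.range_inj hg).1 h1
  refine ⟨h2, Equiv.ext fun j => hf.injective ?_⟩
  rw [h j, h2]

theorem ord_comp {n p q r N : ℕ} (σ : E n p q r → Fin N) (h : H n p q r) (hσ : Ord σ) :
    Ord (fun e => σ (Phi h e)) := by
  obtain ⟨h1, h2, h3, h4⟩ := hσ
  refine ⟨fun i => h1 i, fun i j => ?_, fun i j => ?_, fun i j => ?_⟩
  · show σ (Phi h (lo i j)) < σ (Phi h (X i.castSucc))
    rw [Phi_lo, Phi_X]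
    exact h2 i _
  · show σ (Phi h (X i.castSucc)) < σ (Phi h (mi i j)) ∧ σ (Phi h (mi i j)) < σ (Phi h (X i.succ))
    rw [Phi_mi, Phi_X, Phi_X]
    exact h3 i _
  · show σ (Phi h (X i.succ)) < σ (Phi h (up i j))
    rw [Phi_up, Phi_X]
    exact h4 i _

theorem sort_strict {k N : ℕ} (f : Fin k → Fin N) (hf : Function.Injective f) :
    StrictMono (fun j => f (Tuple.sort f j)) :=
  (Tuple.monotone_sort f).strictMono_of_injective (hf.comp (Tuple.sort f).injective)

theorem card_H (n p q r : ℕ) :
    Nat.card (H n p q r) = (p.factorial * q.factorial * r.factorial) ^ n := by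
  rw [Nat.card_prod, Nat.card_prod, Nat.card_fun, Nat.card_fun, Nat.card_fun, Nat.card_perm,
    Nat.card_perm, Nat.card_perm, Nat.card_fin, Nat.card_fin, Nat.card_fin, Nat.card_fin,
    mul_pow, mul_pow]
  ring

theorem orb1 : S_ORB1 := by
  classical
  intro n p q r P
  set N := Fintype.card (E n p q r) with hN
  let F : (H n p q r) × (E n p q r ≃ Fin N) → (E n p q r ≃ Fin N) := fun x =>
    (Phi x.1).trans x.2
  have hF : ∀ x e, F x e = x.2 (Phi x.1 e) := fun x e => rfl
  have himg : {σ : E n p q r ≃ Fin N | Ord σ ∧ P (fun i => (σ (X i) : ℕ))} =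
      F '' ((Set.univ : Set (H n p q r)) ×ˢ {σ : E n p q r ≃ Fin N | Ord σ ∧
        Sorted (fun e => σ e) ∧ P (fun i => (σ (X i) : ℕ))}) := by
    ext σ'
    constructor
    · rintro ⟨hO, hP⟩
      have i1 : ∀ i : Fin n, Function.Injective (fun j : Fin p => σ' (lo i j)) := by
        intro i j j' hjj
        have h := σ'.injective hjj
        simpa [lo] using h
      have i2 : ∀ i : Fin n, Function.Injective (fun j : Fin q => σ' (mi i j)) := by
        intro i j j' hjj
        have h := σ'.injective hjj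
        simpa [mi] using h
      have i3 : ∀ i : Fin n, Function.Injective (fun j : Fin r => σ' (up i j)) := by
        intro i j j' hjj
        have h := σ'.injective hjj
        simpa [up] using h
      let h : H n p q r := (fun i => Tuple.sort (fun j : Fin p => σ' (lo i j)),
        fun i => Tuple.sort (fun j : Fin q => σ' (mi i j)),
        fun i => Tuple.sort (fun j : Fin r => σ' (up i j)))
      let h' : H n p q r := (fun i => (h.1 i).symm, fun i => (h.2.1 i).symm,
        fun i => (h.2.2 i).symm)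
      have hh : ∀ e, Phi h (Phi h' e) = e := by
        intro e
        refine E_cases (C := fun e => Phi h (Phi h' e) = e) ?_ ?_ ?_ ?_ e
        · intro i
          rfl
        · intro i j
          show Phi h (Phi h' (lo i j)) = lo i j
          rw [Phi_lo, Phi_lo]
          congr 1
          exact (h.1 i).apply_symm_apply j
        · intro i j
          show Phi h (Phi h' (mi i j)) = mi i j
          rw [Phi_mi, Phi_mi]
          congr 1
          exact (h.2.1 i).apply_symm_apply j
        · intro i j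
          show Phi h (Phi h' (up i j)) = up i j
          rw [Phi_up, Phi_up]
          congr 1
          exact (h.2.2 i).apply_symm_apply j
      refine ⟨(h', (Phi h).trans σ'), ⟨Set.mem_univ _, ?_, ?_, ?_⟩, ?_⟩
      · exact ord_comp (fun e => σ' e) h hO
      · refine ⟨fun i => ?_, fun i => ?_, fun i => ?_⟩
        · exact sort_strict (fun j : Fin p => σ' (lo i j)) (i1 i)
        · exact sort_strict (fun j : Fin q => σ' (mi i j)) (i2 i)
        · exact sort_strict (fun j : Fin r => σ' (up i j)) (i3 i)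
      · exact hP
      · refine Equiv.ext fun e => ?_
        rw [hF]
        show σ' (Phi h (Phi h' e)) = σ' e
        rw [hh]
    · rintro ⟨⟨h, σ⟩, ⟨-, hO, -, hP⟩, rfl⟩
      exact ⟨ord_comp (fun e => σ e) h hO, hP⟩
  have hinj : Set.InjOn F ((Set.univ : Set (H n p q r)) ×ˢ {σ : E n p q r ≃ Fin N | Ord σ ∧
        Sorted (fun e => σ e) ∧ P (fun i => (σ (X i) : ℕ))}) := by
    rintro ⟨h, σ⟩ ⟨-, -, ⟨s1, s2, s3⟩, -⟩ ⟨h', σ'⟩ ⟨-, -, ⟨t1, t2, t3⟩, -⟩ heq
    have key : ∀ e, σ (Phi h e) = σ' (Phi h' e) := fun e => by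
      have := congrArg (fun x : E n p q r ≃ Fin N => x e) heq
      exact this
    have b1 : ∀ i : Fin n, (fun j : Fin p => σ (lo i j)) = (fun j : Fin p => σ' (lo i j)) ∧
        h.1 i = h'.1 i := fun i =>
      block_inj (s1 i) (t1 i) (h.1 i) (h'.1 i) fun j => key (lo i j)
    have b2 : ∀ i : Fin n, (fun j : Fin q => σ (mi i j)) = (fun j : Fin q => σ' (mi i j)) ∧
        h.2.1 i = h'.2.1 i := fun i =>
      block_inj (s2 i) (t2 i) (h.2.1 i) (h'.2.1 i) fun j => key (mi i j)
    have b3 : ∀ i : Fin n, (fun j : Fin r => σ (up i j)) = (fun j : Fin r => σ' (up i j)) ∧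
        h.2.2 i = h'.2.2 i := fun i =>
      block_inj (s3 i) (t3 i) (h.2.2 i) (h'.2.2 i) fun j => key (up i j)
    have eh : h = h' := by
      refine Prod.ext (funext fun i => (b1 i).2) (Prod.ext (funext fun i => (b2 i).2)
        (funext fun i => (b3 i).2))
    have eσ : σ = σ' := by
      refine Equiv.ext fun e => ?_
      refine E_cases (C := fun e => σ e = σ' e) ?_ ?_ ?_ ?_ e
      · intro i
        exact key (X i)
      · intro i j
        exact congrFun (b1 i).1 j
      · intro i j
        exact congrFun (b2 i).1 j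
      · intro i j
        exact congrFun (b3 i).1 j
    rw [eh, eσ]
  rw [himg, hinj.ncard_image, Set.ncard_prod, Set.ncard_univ, card_H]

end Pool.Agent.Q162.CP
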