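import Pool.Agent.Q109.CP.Stm

/-!
# Project CP, lemma ORB2: sorted orderings are linear extensions of the cluster poset
-/

set_option autoImplicit false

namespace Pool.Agent.Q162.CP2

open Q109.CP

/-- the element of the cluster poset in row `i`, position `j` -/
def el {n p q r : ℕ} (i : Fin n) (j : Fin (p + q + r + 2)) : E n p q r :=
  if h1 : (j : ℕ) < p then lo i ⟨j, h1⟩
  else if h3 : (j : ℕ) = p then X i.castSucc
  else if h2 : (j : ℕ) < p + q + 1 then mi i ⟨(j : ℕ) - (p + 1), by omega⟩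
  else if h4 : (j : ℕ) = p + q + 1 then X i.succ
  else up i ⟨(j : ℕ) - (p + q + 2), by omega⟩

theorem pos_cases {p q r : ℕ} (j : Fin (p + q + r + 2)) :
    (∃ k : Fin p, (j : ℕ) = k) ∨ (j : ℕ) = p ∨ (∃ k : Fin q, (j : ℕ) = p + 1 + k) ∨
      (j : ℕ) = p + q + 1 ∨ (∃ k : Fin r, (j : ℕ) = p + q + 2 + k) := by
  by_cases h1 : (j : ℕ) < p
  · exact Or.inl ⟨⟨j, h1⟩, rfl⟩
  by_cases h2 : (j : ℕ) = p
  · exact Or.inr (Or.inl h2)
  by_cases h3 : (j : ℕ) < p + q + 1
  · exact Or.inr (Or.inr (Or.inl ⟨⟨(j : ℕ) - (p + 1), by omega⟩, by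
      show (j : ℕ) = p + 1 + ((j : ℕ) - (p + 1))
      omega⟩))
  by_cases h4 : (j : ℕ) = p + q + 1
  · exact Or.inr (Or.inr (Or.inr (Or.inl h4)))
  · exact Or.inr (Or.inr (Or.inr (Or.inr ⟨⟨(j : ℕ) - (p + q + 2), by omega⟩, by
      show (j : ℕ) = p + q + 2 + ((j : ℕ) - (p + q + 2))
      omega⟩)))

theorem el_lo {n p q r : ℕ} (i : Fin n) {j : Fin (p + q + r + 2)} (k : Fin p)
    (h : (j : ℕ) = k) : (el i j : E n p q r) = lo i k := by
  unfold el
  have h1 : (j : ℕ) < p := by omega
  rw [dif_pos h1]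
  congr 1
  exact Fin.ext h

theorem el_a {n p q r : ℕ} (i : Fin n) {j : Fin (p + q + r + 2)}
    (h : (j : ℕ) = p) : (el i j : E n p q r) = X i.castSucc := by
  unfold el
  rw [dif_neg (by omega), dif_pos h]

theorem el_mi {n p q r : ℕ} (i : Fin n) {j : Fin (p + q + r + 2)} (k : Fin q)
    (h : (j : ℕ) = p + 1 + k) : (el i j : E n p q r) = mi i k := by
  unfold el
  rw [dif_neg (by omega), dif_neg (by omega), dif_pos (by omega)]
  congr 1
  apply Fin.ext
  show (j : ℕ) - (p + 1) = k
  omega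

theorem el_b {n p q r : ℕ} (i : Fin n) {j : Fin (p + q + r + 2)}
    (h : (j : ℕ) = p + q + 1) : (el i j : E n p q r) = X i.succ := by
  unfold el
  rw [dif_neg (by omega), dif_neg (by omega), dif_neg (by omega), dif_pos h]

theorem el_up {n p q r : ℕ} (i : Fin n) {j : Fin (p + q + r + 2)} (k : Fin r)
    (h : (j : ℕ) = p + q + 2 + k) : (el i j : E n p q r) = up i k := by
  unfold el
  rw [dif_neg (by omega), dif_neg (by omega), dif_neg (by omega), dif_neg (by omega)]
  congr 1
  apply Fin.ext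
  show (j : ℕ) - (p + q + 2) = k
  omega

theorem card_E (n p q r : ℕ) :
    Fintype.card (E n p q r) = (p + q + r + 2 - 1) * n + 1 := by
  simp only [Fintype.card_sum, Fintype.card_prod, Fintype.card_fin]
  have : p + q + r + 2 - 1 = p + q + r + 1 := by omega
  rw [this]
  ring

/-- rows are increasing -/
theorem row_strict {n p q r N : ℕ} {σ : E n p q r → Fin N} (hO : Ord σ) (hS : Sorted σ)
    (i : Fin n) : StrictMono (fun j : Fin (p + q + r + 2) => ((σ (el i j) : Fin N) : ℕ)) := by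
  obtain ⟨o1, o2, o3, o4⟩ := hO
  obtain ⟨s1, s2, s3⟩ := hS
  intro j j' hjj
  have hlt : (j : ℕ) < j' := hjj
  have x1 : (σ (X i.castSucc) : ℕ) < σ (X i.succ) := o1 i
  have x2 : ∀ k : Fin p, (σ (lo i k) : ℕ) < σ (X i.castSucc) := fun k => o2 i k
  have x3 : ∀ k : Fin q, (σ (X i.castSucc) : ℕ) < σ (mi i k) := fun k => (o3 i k).1
  have x4 : ∀ k : Fin q, (σ (mi i k) : ℕ) < σ (X i.succ) := fun k => (o3 i k).2
  have x5 : ∀ k : Fin r, (σ (X i.succ) : ℕ) < σ (up i k) := fun k => o4 i k
  show (σ (el i j) : ℕ) < σ (el i j')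
  rcases pos_cases j with ⟨k, h⟩ | h | ⟨k, h⟩ | h | ⟨k, h⟩
  · rw [el_lo i k h]
    have y := x2 k
    rcases pos_cases j' with ⟨k', h'⟩ | h' | ⟨k', h'⟩ | h' | ⟨k', h'⟩
    · rw [el_lo i k' h']
      have hk : k < k' := by
        show (k : ℕ) < k'
        omega
      exact s1 i hk
    · rw [el_a i h']
      exact y
    · rw [el_mi i k' h']
      have := x3 k'
      omega
    · rw [el_b i h']
      omega
    · rw [el_up i k' h']
      have := x5 k'
      omega
  · rw [el_a i h]
    rcases pos_cases j' with ⟨k', h'⟩ | h' | ⟨k', h'⟩ | h' | ⟨k', h'⟩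
    · have := k'.2
      omega
    · omega
    · rw [el_mi i k' h']
      exact x3 k'
    · rw [el_b i h']
      exact x1
    · rw [el_up i k' h']
      have := x5 k'
      omega
  · rw [el_mi i k h]
    have y := x4 k
    rcases pos_cases j' with ⟨k', h'⟩ | h' | ⟨k', h'⟩ | h' | ⟨k', h'⟩
    · have := k'.2
      omega
    · omega
    · rw [el_mi i k' h']
      have hk : k < k' := by
        show (k : ℕ) < k'
        omega
      exact s2 i hk
    · rw [el_b i h']
      exact y
    · rw [el_up i k' h']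
      have := x5 k'
      omega
  · rw [el_b i h]
    rcases pos_cases j' with ⟨k', h'⟩ | h' | ⟨k', h'⟩ | h' | ⟨k', h'⟩
    · have := k'.2
      omega
    · omega
    · have := k'.2
      omega
    · omega
    · rw [el_up i k' h']
      exact x5 k'
  · rw [el_up i k h]
    rcases pos_cases j' with ⟨k', h'⟩ | h' | ⟨k', h'⟩ | h' | ⟨k', h'⟩
    · have := k'.2
      omega
    · omega
    · have := k'.2
      omega
    · omega
    · rw [el_up i k' h']
      have hk : k < k' := by
        show (k : ℕ) < k'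
        omega
      exact s3 i hk

/-- equal elements -/
theorem el_inj {n p q r : ℕ} {a b : Fin (p + q + r + 2)} (ha : (a : ℕ) = p)
    (hb : (b : ℕ) = p + q + 1) {i i' : Fin n} {j j' : Fin (p + q + r + 2)}
    (h : (el i j : E n p q r) = el i' j') :
    (i = i' ∧ j = j') ∨ ((i : ℕ) + 1 = i' ∧ j = b ∧ j' = a) ∨
      ((i' : ℕ) + 1 = i ∧ j' = b ∧ j = a) := by
  have e : ∀ {x y : Fin (p + q + r + 2)}, (x : ℕ) = y → x = y := fun h => Fin.ext h
  rcases pos_cases j with ⟨k, g⟩ | g | ⟨k, g⟩ | g | ⟨k, g⟩ <;>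
  rcases pos_cases j' with ⟨k', g'⟩ | g' | ⟨k', g'⟩ | g' | ⟨k', g'⟩
  · rw [el_lo i k g, el_lo i' k' g'] at h
    simp only [lo, Sum.inr.injEq, Sum.inl.injEq, Prod.mk.injEq] at h
    exact Or.inl ⟨h.1, e (by rw [g, g', h.2])⟩
  · rw [el_lo i k g, el_a i' g'] at h
    simp [lo, X] at h
  · rw [el_lo i k g, el_mi i' k' g'] at h
    simp [lo, mi] at h
  · rw [el_lo i k g, el_b i' g'] at h
    simp [lo, X] at h
  · rw [el_lo i k g, el_up i' k' g'] at h
    simp [lo, up] at h
  · rw [el_a i g, el_lo i' k' g'] at h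
    simp [lo, X] at h
  · rw [el_a i g, el_a i' g'] at h
    simp only [X, Sum.inl.injEq] at h
    have h2 := congrArg Fin.val h
    exact Or.inl ⟨Fin.ext (by simpa using h2), e (by rw [g, g'])⟩
  · rw [el_a i g, el_mi i' k' g'] at h
    simp [mi, X] at h
  · rw [el_a i g, el_b i' g'] at h
    simp only [X, Sum.inl.injEq] at h
    have h2 := congrArg Fin.val h
    simp only [Fin.val_castSucc, Fin.val_succ] at h2
    exact Or.inr (Or.inr ⟨h2.symm, e (by rw [g', hb]), e (by rw [g, ha])⟩)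
  · rw [el_a i g, el_up i' k' g'] at h
    simp [up, X] at h
  · rw [el_mi i k g, el_lo i' k' g'] at h
    simp [lo, mi] at h
  · rw [el_mi i k g, el_a i' g'] at h
    simp [mi, X] at h
  · rw [el_mi i k g, el_mi i' k' g'] at h
    simp only [mi, Sum.inr.injEq, Sum.inl.injEq, Prod.mk.injEq] at h
    exact Or.inl ⟨h.1, e (by rw [g, g', h.2])⟩
  · rw [el_mi i k g, el_b i' g'] at h
    simp [mi, X] at h
  · rw [el_mi i k g, el_up i' k' g'] at h
    simp [mi, up] at h
  · rw [el_b i g, el_lo i' k' g'] at h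
    simp [lo, X] at h
  · rw [el_b i g, el_a i' g'] at h
    simp only [X, Sum.inl.injEq] at h
    have h2 := congrArg Fin.val h
    simp only [Fin.val_castSucc, Fin.val_succ] at h2
    exact Or.inr (Or.inl ⟨h2, e (by rw [g, hb]), e (by rw [g', ha])⟩)
  · rw [el_b i g, el_mi i' k' g'] at h
    simp [mi, X] at h
  · rw [el_b i g, el_b i' g'] at h
    simp only [X, Sum.inl.injEq] at h
    have h2 := congrArg Fin.val h
    simp only [Fin.val_succ] at h2
    exact Or.inl ⟨Fin.ext (by omega), e (by rw [g, g'])⟩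
  · rw [el_b i g, el_up i' k' g'] at h
    simp [up, X] at h
  · rw [el_up i k g, el_lo i' k' g'] at h
    simp [lo, up] at h
  · rw [el_up i k g, el_a i' g'] at h
    simp [up, X] at h
  · rw [el_up i k g, el_mi i' k' g'] at h
    simp [mi, up] at h
  · rw [el_up i k g, el_b i' g'] at h
    simp [up, X] at h
  · rw [el_up i k g, el_up i' k' g'] at h
    simp only [up, Sum.inr.injEq, Prod.mk.injEq] at h
    exact Or.inl ⟨h.1, e (by rw [g, g', h.2])⟩

/-- a value at each element, from the rows -/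
noncomputable def val {n p q r : ℕ} (a b : Fin (p + q + r + 2))
    (h : Fin n → Fin (p + q + r + 2) → ℕ) : E n p q r → ℕ
  | Sum.inl i => ht a b h i
  | Sum.inr (Sum.inl (i, j)) => h i ⟨j, by omega⟩
  | Sum.inr (Sum.inr (Sum.inl (i, j))) => h i ⟨p + 1 + j, by omega⟩
  | Sum.inr (Sum.inr (Sum.inr (i, j))) => h i ⟨p + q + 2 + j, by omega⟩

theorem val_el {n p q r : ℕ} {a b : Fin (p + q + r + 2)} (ha : (a : ℕ) = p)
    (hb : (b : ℕ) = p + q + 1) {h : Fin n → Fin (p + q + r + 2) → ℕ} (hh : IsLE a b h)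
    (i : Fin n) (j : Fin (p + q + r + 2)) : val a b h (el i j) = h i j := by
  rcases pos_cases j with ⟨k, g⟩ | g | ⟨k, g⟩ | g | ⟨k, g⟩
  · rw [el_lo i k g]
    show h i ⟨k, _⟩ = h i j
    congr 1
    exact Fin.ext g.symm
  · rw [el_a i g]
    show ht a b h i.castSucc = h i j
    unfold ht
    rw [dif_pos (by simp)]
    have e1 : a = j := Fin.ext (by rw [ha, g])
    rw [e1]
    rfl
  · rw [el_mi i k g]
    show h i ⟨p + 1 + k, _⟩ = h i j
    congr 1
    exact Fin.ext g.symm
  · rw [el_b i g]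
    show ht a b h i.succ = h i j
    have e1 : b = j := Fin.ext (by rw [hb, g])
    unfold ht
    by_cases hi : (i.succ : ℕ) < n
    · rw [dif_pos hi, ← e1]
      exact (hh.2.2.1 i ⟨i.succ, hi⟩ (by simp)).symm
    · have hi2 : (i : ℕ) = n - 1 := by
        have := i.2
        simp only [Fin.val_succ, not_lt] at hi
        omega
      have hn : n - 1 < n := by
        have := i.2
        omega
      rw [dif_neg hi, dif_pos hn, e1]
      congr 1
      exact Fin.ext hi2.symm
  · rw [el_up i k g]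
    show h i ⟨p + q + 2 + k, _⟩ = h i j
    congr 1
    exact Fin.ext g.symm

/-- every element occurs in a row -/
theorem el_surj {n p q r : ℕ} (hn : 1 ≤ n) (e : E n p q r) :
    ∃ (i : Fin n) (j : Fin (p + q + r + 2)), e = el i j := by
  rcases e with i | ⟨i, j⟩ | ⟨i, j⟩ | ⟨i, j⟩
  · by_cases hi : (i : ℕ) < n
    · refine ⟨⟨i, hi⟩, ⟨p, by omega⟩, ?_⟩
      rw [el_a _ rfl]
      show Sum.inl i = Sum.inl _
      congr 1
    · refine ⟨⟨n - 1, by omega⟩, ⟨p + q + 1, by omega⟩, ?_⟩
      rw [el_b _ rfl]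
      show Sum.inl i = Sum.inl _
      congr 1
      apply Fin.ext
      have := i.2
      simp only [Fin.succ_mk]
      omega
  · exact ⟨i, ⟨j, by omega⟩, (el_lo i j rfl).symm⟩
  · exact ⟨i, ⟨p + 1 + j, by omega⟩, (el_mi i j rfl).symm⟩
  · exact ⟨i, ⟨p + q + 2 + j, by omega⟩, (el_up i j rfl).symm⟩

theorem orb2 : S_ORB2 := by
  classical
  intro n p q r a b hn ha hb P
  set N := Fintype.card (E n p q r) with hN
  let T : (E n p q r ≃ Fin N) → (Fin n → Fin (p + q + r + 2) → ℕ) := fun σ i j =>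
    (σ (el i j) : ℕ)
  have hht : ∀ σ : E n p q r ≃ Fin N, ∀ i : Fin (n + 1), ht a b (T σ) i = (σ (X i) : ℕ) := by
    intro σ i
    unfold ht
    by_cases hi : (i : ℕ) < n
    · rw [dif_pos hi]
      show (σ (el ⟨i, hi⟩ a) : ℕ) = _
      rw [el_a _ ha]
      rfl
    · rw [dif_neg hi, dif_pos (by omega)]
      show (σ (el ⟨n - 1, _⟩ b) : ℕ) = _
      rw [el_b _ hb]
      have e1 : (⟨n - 1, by omega⟩ : Fin n).succ = i := by
        apply Fin.ext
        have := i.2
        simp only [Fin.succ_mk]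
        omega
      rw [e1]
  have hinj : Set.InjOn T {σ : E n p q r ≃ Fin N | Ord σ ∧ Sorted (fun e => σ e) ∧
        P (fun i => (σ (X i) : ℕ))} := by
    intro σ _ σ' _ h
    refine Equiv.ext fun e => ?_
    obtain ⟨i, j, rfl⟩ := el_surj hn e
    exact Fin.ext (congrFun (congrFun h i) j)
  rw [← hinj.ncard_image]
  congr 1
  ext h
  constructor
  · rintro ⟨σ, ⟨hO, hS, hP⟩, rfl⟩
    refine ⟨⟨fun i => row_strict (σ := fun e => σ e) hO hS i, fun i j => ?_, fun i i' hii => ?_,
      fun i i' j j' hv => ?_⟩, ?_⟩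
    · have h1 : (σ (el i j) : ℕ) < N := (σ (el i j)).2
      rw [← card_E n p q r]
      exact h1
    · show (σ (el i b) : ℕ) = σ (el i' a)
      rw [el_b i hb, el_a i' ha]
      have e1 : i.succ = i'.castSucc := Fin.ext (by simpa using hii)
      rw [e1]
    · exact el_inj ha hb (σ.injective (Fin.ext hv))
    · have e1 : (fun i : Fin (n + 1) => ht a b (T σ) (i : ℕ)) =
          fun i => (σ (X i) : ℕ) := funext fun i => hht σ i
      rw [e1]
      exact hP
  · rintro ⟨hh, hP⟩
    have hlt : ∀ e : E n p q r, val a b h e < N := by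
      intro e
      obtain ⟨i, j, rfl⟩ := el_surj hn e
      rw [val_el ha hb hh, hN, card_E]
      exact hh.2.1 i j
    have hvinj : Function.Injective (fun e : E n p q r => (⟨val a b h e, hlt e⟩ : Fin N)) := by
      intro e e' hee
      have h0 : val a b h e = val a b h e' := congrArg Fin.val hee
      obtain ⟨i, j, rfl⟩ := el_surj hn e
      obtain ⟨i', j', rfl⟩ := el_surj hn e'
      rw [val_el ha hb hh, val_el ha hb hh] at h0
      rcases hh.2.2.2 i i' j j' h0 with ⟨h1, h2⟩ | ⟨h1, h2, h3⟩ | ⟨h1, h2, h3⟩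
      · rw [h1, h2]
      · rw [h2, h3, el_b i hb, el_a i' ha]
        congr 1
        exact Fin.ext (by simpa using h1)
      · rw [h2, h3, el_b i' hb, el_a i ha]
        congr 1
        exact Fin.ext (by simpa using h1.symm)
    have hvbij : Function.Bijective (fun e : E n p q r => (⟨val a b h e, hlt e⟩ : Fin N)) := by
      rw [Fintype.bijective_iff_injective_and_card]
      exact ⟨hvinj, by rw [Fintype.card_fin]⟩
    let σ : E n p q r ≃ Fin N := Equiv.ofBijective _ hvbij
    have hσ : ∀ i j, (σ (el i j) : ℕ) = h i j := fun i j => val_el ha hb hh i j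
    have hT : T σ = h := funext fun i => funext fun j => hσ i j
    have row : ∀ (i : Fin n) (j j' : Fin (p + q + r + 2)), (j : ℕ) < j' →
        σ (el i j) < σ (el i j') := by
      intro i j j' hjj
      show (σ (el i j) : ℕ) < σ (el i j')
      rw [hσ, hσ]
      exact hh.1 i hjj
    refine ⟨σ, ⟨⟨fun i => ?_, fun i j => ?_, fun i j => ?_, fun i j => ?_⟩,
      ⟨fun i j j' hjj => ?_, fun i j j' hjj => ?_, fun i j j' hjj => ?_⟩, ?_⟩, hT⟩
    · have h1 := row i a b (by rw [ha, hb]; omega)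
      rw [el_a i ha, el_b i hb] at h1
      exact h1
    · have h1 := row i ⟨j, by omega⟩ a (by rw [ha]; exact j.2)
      rw [el_a i ha, el_lo i j rfl] at h1
      exact h1
    · have h1 := row i a ⟨p + 1 + j, by omega⟩ (by
        rw [ha]
        show p < p + 1 + (j : ℕ)
        omega)
      have h2 := row i ⟨p + 1 + j, by omega⟩ b (by
        rw [hb]
        show p + 1 + (j : ℕ) < p + q + 1
        omega)
      rw [el_a i ha, el_mi i j rfl] at h1
      rw [el_b i hb, el_mi i j rfl] at h2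
      exact ⟨h1, h2⟩
    · have h1 := row i b ⟨p + q + 2 + j, by omega⟩ (by
        rw [hb]
        show p + q + 1 < p + q + 2 + (j : ℕ)
        omega)
      rw [el_b i hb, el_up i j rfl] at h1
      exact h1
    · have h1 := row i ⟨j, by omega⟩ ⟨j', by omega⟩ hjj
      rw [el_lo i j rfl, el_lo i j' rfl] at h1
      exact h1
    · have h1 := row i ⟨p + 1 + j, by omega⟩ ⟨p + 1 + j', by omega⟩ (by
        show p + 1 + (j : ℕ) < p + 1 + j'
        have : (j : ℕ) < j' := hjj
        omega)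
      rw [el_mi i j rfl, el_mi i j' rfl] at h1
      exact h1
    · have h1 := row i ⟨p + q + 2 + j, by omega⟩ ⟨p + q + 2 + j', by omega⟩ (by
        show p + q + 2 + (j : ℕ) < p + q + 2 + j'
        have : (j : ℕ) < j' := hjj
        omega)
      rw [el_up i j rfl, el_up i j' rfl] at h1
      exact h1
    · have e1 : (fun i : Fin (n + 1) => (σ (X i) : ℕ)) =
          fun i : Fin (n + 1) => ht a b h (i : ℕ) := by
        funext i
        rw [← hht σ i, hT]
      rw [e1]
      exact hP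

end Pool.Agent.Q162.CP2
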